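import Pool.Agent.H63.FG3

set_option autoImplicit false

namespace Pool.Agent.Results.MP_7f9305_lc.Strict

open Pool.Agent.H63.FG

/-- Some language generated by an LF-E0L grammar is, even up to the empty word, generated by no
ET0L grammar. -/
theorem result : ∃ (N : Type) (_ : Fintype N) (G : LFG (Fin 3) N),
    ∀ (N' : Type) [Fintype N'] (G' : ETG (Fin 3) N'), G'.lang \ {[]} ≠ G.lang \ {[]} := et_sep

end Pool.Agent.Results.MP_7f9305_lc.Strict
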